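import Pool.Agent.J4H80.QU.Jobs

set_option autoImplicit false

/-! Project QU: box Cauchy-Schwarz, box sums, split phases, restricted boxes. -/

namespace Pool.Agent.J4H8.QU

open Finset Pool.Agent.J4H80.QU

/-- power mean inequality -/
theorem jensen {ι : Type*} (s : Finset ι) (f : ι → ℝ) (hf : ∀ i ∈ s, 0 ≤ f i) (n : ℕ) :
    (∑ i ∈ s, f i) ^ (n + 1) ≤ (s.card : ℝ) ^ n * ∑ i ∈ s, f i ^ (n + 1) := by
  have h := pow_sum_div_card_le_sum_pow hf n
  rcases Finset.eq_empty_or_nonempty s with rfl | hs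
  · simp
  · have hc : (0 : ℝ) < (s.card : ℝ) ^ n := by
      have : (0 : ℝ) < (s.card : ℝ) := by exact_mod_cast Finset.card_pos.2 hs
      positivity
    rw [div_le_iff₀ hc] at h
    rwa [mul_comm]

theorem sum_cons' {α : Type*} [Fintype α] {k : ℕ} {M : Type*} [AddCommMonoid M]
    (Φ : (Fin (k + 1) → α) → M) : ∑ h, Φ h = ∑ d : α, ∑ h : Fin k → α, Φ (Fin.cons d h) := by
  rw [← Fintype.sum_prod_type']
  exact (Fintype.sum_equiv (Fin.consEquiv (fun _ => α)) _ _ fun q => rfl).symm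

theorem update_cons_succ {α : Type*} {k : ℕ} (t : α) (h : Fin k → α) (j : Fin k) (s : α) :
    Function.update (Fin.cons t h : Fin (k + 1) → α) j.succ s = Fin.cons t (Function.update h j s) := by
  rw [Fin.cons_update]

theorem box_zero {α : Type*} [Fintype α] (Φ : (Fin 0 → α) → ℝ) : Box 0 Φ = Φ Fin.elim0 := rfl

theorem box_succ {α : Type*} [Fintype α] (k : ℕ) (Φ : (Fin (k + 1) → α) → ℝ) :
    Box (k + 1) Φ = ∑ t : α, ∑ t' : α, Box k (fun h : Fin k → α =>
      Φ (Fin.cons t h : Fin (k + 1) → α) * Φ (Fin.cons t' h : Fin (k + 1) → α)) := rfl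

theorem box_one {α : Type*} [Fintype α] (Φ : (Fin 1 → α) → ℝ) :
    Box 1 Φ = (∑ h, Φ h) ^ 2 := by
  rw [box_succ, sum_cons']
  simp only [box_zero, Fintype.sum_unique]
  rw [sq, Finset.sum_mul_sum]
  refine Finset.sum_congr rfl fun t _ => Finset.sum_congr rfl fun t' _ => ?_
  have : (Fin.elim0 : Fin 0 → α) = default := Subsingleton.elim _ _
  rw [this]

/-- the basic step: Cauchy-Schwarz in the variables other than the first one -/
theorem cs_step {α : Type*} [Fintype α] {k : ℕ} (X : α → (Fin k → α) → ℂ) (b : (Fin k → α) → ℂ)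
    (hb : ∀ h, ‖b h‖ ≤ 1) :
    ‖∑ h, b h * ∑ t, X t h‖ ^ 2 ≤ (Fintype.card α : ℝ) ^ k *
      ∑ q : α × α, ‖∑ h, X q.1 h * (starRingEnd ℂ) (X q.2 h)‖ := by
  have h1 : ‖∑ h, b h * ∑ t, X t h‖ ≤ ∑ h, ‖∑ t, X t h‖ := by
    refine (norm_sum_le _ _).trans (Finset.sum_le_sum fun h _ => ?_)
    rw [norm_mul]
    exact mul_le_of_le_one_left (norm_nonneg _) (hb h)
  have h2 : (∑ h, ‖∑ t, X t h‖) ^ 2 ≤ (Fintype.card α : ℝ) ^ k * ∑ h, ‖∑ t, X t h‖ ^ 2 := by
    have := jensen (Finset.univ : Finset (Fin k → α)) (fun h => ‖∑ t, X t h‖) (fun _ _ => norm_nonneg _) 1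
    rw [Finset.card_univ, Fintype.card_fun, Fintype.card_fin, pow_one] at this
    push_cast at this
    exact this
  have h3 : ∑ h, ‖∑ t, X t h‖ ^ 2 ≤ ∑ q : α × α, ‖∑ h, X q.1 h * (starRingEnd ℂ) (X q.2 h)‖ := by
    have e : ((∑ h, ‖∑ t, X t h‖ ^ 2 : ℝ) : ℂ) = ∑ q : α × α, ∑ h, X q.1 h * (starRingEnd ℂ) (X q.2 h) := by
      rw [Complex.ofReal_sum, Finset.sum_comm]
      refine Finset.sum_congr rfl fun h _ => ?_
      rw [sq_norm, map_sum, Finset.sum_mul_sum, Fintype.sum_prod_type]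
    have e2 : ∑ h, ‖∑ t, X t h‖ ^ 2 = ‖((∑ h, ‖∑ t, X t h‖ ^ 2 : ℝ) : ℂ)‖ := by
      rw [Complex.norm_real, Real.norm_eq_abs, abs_of_nonneg]
      exact Finset.sum_nonneg fun _ _ => by positivity
    rw [e2, e]
    exact norm_sum_le _ _
  calc ‖∑ h, b h * ∑ t, X t h‖ ^ 2 ≤ (∑ h, ‖∑ t, X t h‖) ^ 2 := pow_le_pow_left₀ (norm_nonneg _) h1 2
    _ ≤ _ := h2
    _ ≤ _ := mul_le_mul_of_nonneg_left h3 (by positivity)

theorem boxcs {α : Type*} [Fintype α] (k : ℕ) : ∀ (Φ : (Fin (k + 1) → α) → ℝ)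
    (B : Fin (k + 1) → (Fin (k + 1) → α) → ℂ), (∀ j h, ‖B j h‖ ≤ 1) →
    (∀ j h t, B j (Function.update h j t) = B j h) →
    ‖∑ h, (Φ h : ℂ) * ∏ j, B j h‖ ^ (2 ^ (k + 1)) ≤
      (Fintype.card α : ℝ) ^ ((k + 1) * 2 ^ (k + 1) - 2 * (k + 1)) * Box (k + 1) Φ := by
  induction k with
  | zero =>
    intro Φ B hB hB2
    rw [box_one]
    simp only [zero_add, pow_one, one_mul, mul_one, tsub_self, pow_zero]
    have hconst : ∀ h h' : Fin 1 → α, B 0 h = B 0 h' := by
      intro h h'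
      have : Function.update h 0 (h' 0) = h' := by
        funext i
        have : i = 0 := Subsingleton.elim _ _
        rw [this, Function.update_self]
      rw [← hB2 0 h (h' 0), this]
    rcases isEmpty_or_nonempty (Fin 1 → α) with hE | ⟨⟨h0⟩⟩
    · simp
    · have e : ∑ h, (Φ h : ℂ) * ∏ j, B j h = ((∑ h, Φ h : ℝ) : ℂ) * B 0 h0 := by
        push_cast
        rw [Finset.sum_mul]
        refine Finset.sum_congr rfl fun h _ => ?_
        rw [Fin.prod_univ_one, hconst h h0]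
      rw [e, norm_mul, mul_pow, Complex.norm_real, Real.norm_eq_abs, sq_abs]
      refine mul_le_of_le_one_right (sq_nonneg _) ?_
      exact pow_le_one₀ (norm_nonneg _) (hB _ _)
  | succ k ih =>
    intro Φ B hB hB2
    have hn : (0 : ℝ) ≤ (Fintype.card α : ℝ) := Nat.cast_nonneg _
    rcases isEmpty_or_nonempty α with hE | ⟨⟨a0⟩⟩
    · have : IsEmpty (Fin (k + 1 + 1) → α) := ⟨fun f => hE.false (f 0)⟩
      rw [Finset.univ_eq_empty, Finset.sum_empty, norm_zero, zero_pow (by positivity), box_succ]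
      simp
    set b : (Fin (k + 1) → α) → ℂ := fun h => B 0 (Fin.cons a0 h) with hb
    have hb1 : ∀ (t : α) (h : Fin (k + 1) → α), B 0 (Fin.cons t h) = b h := by
      intro t h
      rw [hb]
      simp only
      rw [← hB2 0 (Fin.cons t h) a0, Fin.update_cons_zero]
    set X : α → (Fin (k + 1) → α) → ℂ := fun t h =>
      (Φ (Fin.cons t h) : ℂ) * ∏ j : Fin (k + 1), B j.succ (Fin.cons t h) with hX
    have e1 : ∑ h, (Φ h : ℂ) * ∏ j, B j h = ∑ h, b h * ∑ t, X t h := by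
      rw [sum_cons', Finset.sum_comm]
      refine Finset.sum_congr rfl fun h _ => ?_
      rw [Finset.mul_sum]
      refine Finset.sum_congr rfl fun t _ => ?_
      rw [Fin.prod_univ_succ, hb1, hX]
      ring
    have h1 := cs_step X b (fun h => hB _ _)
    rw [← e1] at h1
    have h2 : ∀ q : α × α, ‖∑ h, X q.1 h * (starRingEnd ℂ) (X q.2 h)‖ ^ (2 ^ (k + 1)) ≤
        (Fintype.card α : ℝ) ^ ((k + 1) * 2 ^ (k + 1) - 2 * (k + 1)) *
          Box (k + 1) (fun h : Fin (k + 1) → α => Φ (Fin.cons q.1 h) * Φ (Fin.cons q.2 h)) := by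
      intro q
      have := ih (fun h : Fin (k + 1) → α => Φ (Fin.cons q.1 h) * Φ (Fin.cons q.2 h))
        (fun j h => B j.succ (Fin.cons q.1 h) * (starRingEnd ℂ) (B j.succ (Fin.cons q.2 h)))
        (fun j h => by
          rw [norm_mul, RCLike.norm_conj]
          exact mul_le_one₀ (hB _ _) (norm_nonneg _) (hB _ _))
        (fun j h t => by
          rw [← update_cons_succ, ← update_cons_succ, hB2, hB2])
      refine le_trans (le_of_eq ?_) this
      congr 2
      refine Finset.sum_congr rfl fun h _ => ?_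
      rw [Finset.prod_mul_distrib, hX]
      simp only [map_mul, map_prod, Complex.conj_ofReal]
      push_cast
      ring
    have h3 : (∑ q : α × α, ‖∑ h, X q.1 h * (starRingEnd ℂ) (X q.2 h)‖) ^ (2 ^ (k + 1)) ≤
        ((Fintype.card α : ℝ) ^ 2) ^ (2 ^ (k + 1) - 1) *
          ((Fintype.card α : ℝ) ^ ((k + 1) * 2 ^ (k + 1) - 2 * (k + 1)) * Box (k + 2) Φ) := by
      have a1 := jensen (Finset.univ : Finset (α × α))
        (fun q => ‖∑ h, X q.1 h * (starRingEnd ℂ) (X q.2 h)‖) (fun _ _ => norm_nonneg _) (2 ^ (k + 1) - 1)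
      have a2 : 2 ^ (k + 1) - 1 + 1 = 2 ^ (k + 1) := Nat.sub_add_cancel Nat.one_le_two_pow
      rw [a2, Finset.card_univ, Fintype.card_prod] at a1
      push_cast at a1
      rw [← sq] at a1
      refine a1.trans (mul_le_mul_of_nonneg_left ?_ (by positivity))
      rw [box_succ, ← Fintype.sum_prod_type', Finset.mul_sum]
      exact Finset.sum_le_sum fun q _ => h2 q
    have e3 : 2 ^ (k + 1 + 1) = 2 * 2 ^ (k + 1) := by ring
    have e4 : (k + 1) * 2 ^ (k + 1) + (2 * (2 ^ (k + 1) - 1) + ((k + 1) * 2 ^ (k + 1) - 2 * (k + 1))) =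
        (k + 1 + 1) * 2 ^ (k + 1 + 1) - 2 * (k + 1 + 1) := by
      have b1 : 2 ≤ 2 ^ (k + 1) := by
        calc 2 = 2 ^ 1 := by norm_num
          _ ≤ 2 ^ (k + 1) := Nat.pow_le_pow_right (by norm_num) (by omega)
      rw [e3]
      obtain ⟨c, hc⟩ : ∃ c, 2 ^ (k + 1) = c + 2 := ⟨2 ^ (k + 1) - 2, by omega⟩
      rw [hc]
      have c1 : (k + 1) * (c + 2) - 2 * (k + 1) = (k + 1) * c := by
        rw [mul_add, mul_comm 2 (k + 1)]; omega
      have c2 : (k + 1 + 1) * (2 * (c + 2)) - 2 * (k + 1 + 1) = (k + 1 + 1) * (2 * c + 2) := by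
        have : (k + 1 + 1) * (2 * (c + 2)) = (k + 1 + 1) * (2 * c + 2) + 2 * (k + 1 + 1) := by ring
        omega
      rw [c1, c2]
      have c3 : c + 2 - 1 = c + 1 := by omega
      rw [c3]
      ring
    calc ‖∑ h, (Φ h : ℂ) * ∏ j, B j h‖ ^ (2 ^ (k + 1 + 1)) =
        (‖∑ h, (Φ h : ℂ) * ∏ j, B j h‖ ^ 2) ^ (2 ^ (k + 1)) := by rw [e3, pow_mul]
      _ ≤ ((Fintype.card α : ℝ) ^ (k + 1) *
          ∑ q : α × α, ‖∑ h, X q.1 h * (starRingEnd ℂ) (X q.2 h)‖) ^ (2 ^ (k + 1)) :=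
          pow_le_pow_left₀ (by positivity) h1 _
      _ = (Fintype.card α : ℝ) ^ ((k + 1) * 2 ^ (k + 1)) *
          (∑ q : α × α, ‖∑ h, X q.1 h * (starRingEnd ℂ) (X q.2 h)‖) ^ (2 ^ (k + 1)) := by
          rw [mul_pow, ← pow_mul]
      _ ≤ (Fintype.card α : ℝ) ^ ((k + 1) * 2 ^ (k + 1)) * (((Fintype.card α : ℝ) ^ 2) ^ (2 ^ (k + 1) - 1) *
          ((Fintype.card α : ℝ) ^ ((k + 1) * 2 ^ (k + 1) - 2 * (k + 1)) * Box (k + 2) Φ)) :=
          mul_le_mul_of_nonneg_left h3 (by positivity)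
      _ = _ := by
          rw [← e4, pow_add, pow_add, ← pow_mul]
          ring

theorem t_BOXCS : S_BOXCS := fun _ _ k Φ B h1 h2 => boxcs k Φ B h1 h2

theorem boxsum {G : Type*} [AddCommGroup G] [Fintype G] (k : ℕ) : ∀ g : G → ℝ,
    ∑ x, Box k (fun h : Fin k → G => g (x + ∑ i, h i)) = (Fintype.card G : ℝ) ^ k * UG k g := by
  induction k with
  | zero =>
    intro g
    simp only [box_zero, UG_zero, Finset.univ_eq_empty, Finset.sum_empty, add_zero, pow_zero, one_mul]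
  | succ k ih =>
    intro g
    simp only [box_succ, Fin.sum_univ_succ, Fin.cons_zero, Fin.cons_succ]
    rw [Finset.sum_comm]
    have e : ∀ t : G, ∑ x, ∑ t', Box k (fun h : Fin k → G => g (x + (t + ∑ i, h i)) * g (x + (t' + ∑ i, h i))) =
        (Fintype.card G : ℝ) ^ k * UG (k + 1) g := by
      intro t
      have e1 : ∀ x : G, ∑ t', Box k (fun h : Fin k → G => g (x + (t + ∑ i, h i)) * g (x + (t' + ∑ i, h i))) =
          ∑ d, Box k (fun h : Fin k → G => D1 d g ((x + t) + ∑ i, h i)) := by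
        intro x
        refine (Fintype.sum_equiv (Equiv.addLeft t) _ _ fun d => ?_).symm
        congr 1
        funext h
        unfold D1
        rw [Equiv.coe_addLeft]
        congr 1
        · have : x + t + ∑ i, h i = x + (t + ∑ i, h i) := by abel
          rw [this]
        · have : x + t + ∑ i, h i + d = x + (t + d + ∑ i, h i) := by abel
          rw [this]
      rw [Finset.sum_congr rfl fun x _ => e1 x, Finset.sum_comm, UG_succ, Finset.mul_sum]
      refine Finset.sum_congr rfl fun d _ => ?_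
      rw [← ih]
      exact Fintype.sum_equiv (Equiv.addRight t) _ _ fun x => rfl
    rw [Finset.sum_congr rfl fun t _ => e t, Finset.sum_const, Finset.card_univ, nsmul_eq_mul, pow_succ]
    ring

theorem t_BOXSUM : S_BOXSUM := fun _ _ _ k g => boxsum k g

/-! ### restricted boxes -/

/-- sums over the differences of an injective family -/
theorem diff_le {G α : Type*} [AddCommGroup G] [Fintype G] [Fintype α] {e : α → G}
    (he : Function.Injective e) (f : G → ℝ) (hf : ∀ u, 0 ≤ f u) :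
    ∑ t : α, ∑ t' : α, f (e t' - e t) ≤ (Fintype.card α : ℝ) * ∑ u, f u := by
  classical
  have h : ∀ t : α, ∑ t' : α, f (e t' - e t) ≤ ∑ u, f u := by
    intro t
    have hi : Function.Injective (fun t' => e t' - e t) := fun a b hab => he (sub_left_injective hab)
    calc ∑ t' : α, f (e t' - e t) = ∑ u ∈ Finset.univ.image (fun t' => e t' - e t), f u := by
          rw [Finset.sum_image fun a _ b _ hab => hi hab]
      _ ≤ ∑ u, f u := Finset.sum_le_sum_of_subset_of_nonneg (Finset.subset_univ _) fun u _ _ => hf u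
  calc _ ≤ ∑ t : α, ∑ u, f u := Finset.sum_le_sum fun t _ => h t
    _ = _ := by rw [Finset.sum_const, Finset.card_univ, nsmul_eq_mul]

/-- the box sum of `g` with restricted differences -/
noncomputable def Zb {G α : Type*} [AddCommGroup G] [Fintype G] [Fintype α] (s : ℕ) (e : Fin s → α → G)
    (g : G → ℝ) : ℝ :=
  ∑ x, Box s (fun h : Fin s → α => g (x + ∑ i, e i (h i)))

theorem Zb_succ {G α : Type*} [AddCommGroup G] [Fintype G] [Fintype α] (s : ℕ) (e : Fin (s + 1) → α → G)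
    (g : G → ℝ) : Zb (s + 1) e g =
      ∑ t : α, ∑ t' : α, Zb s (fun i => e i.succ) (D1 (e 0 t' - e 0 t) g) := by
  unfold Zb
  simp only [box_succ, Fin.sum_univ_succ, Fin.cons_zero, Fin.cons_succ]
  rw [Finset.sum_comm]
  refine Finset.sum_congr rfl fun t _ => ?_
  rw [Finset.sum_comm]
  refine Finset.sum_congr rfl fun t' _ => ?_
  refine Fintype.sum_equiv (Equiv.addRight (e 0 t)) _ _ fun x => ?_
  rw [Equiv.coe_addRight]
  congr 1
  funext h
  unfold D1
  have h1 : x + e 0 t + ∑ i, e (Fin.succ i) (h i) = x + (e 0 t + ∑ i, e (Fin.succ i) (h i)) := by abel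
  have h2 : x + e 0 t + ∑ i, e (Fin.succ i) (h i) + (e 0 t' - e 0 t) =
      x + (e 0 t' + ∑ i, e (Fin.succ i) (h i)) := by abel
  rw [h2, h1]

theorem Zb_one {G α : Type*} [AddCommGroup G] [Fintype G] [Fintype α] (e : Fin 1 → α → G)
    (g : G → ℝ) : Zb 1 e g = ∑ t : α, ∑ t' : α, ∑ x, D1 (e 0 t' - e 0 t) g x := by
  rw [Zb_succ]
  refine Finset.sum_congr rfl fun t _ => Finset.sum_congr rfl fun t' _ => ?_
  unfold Zb
  simp only [box_zero, Finset.univ_eq_empty, Finset.sum_empty, add_zero]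

theorem Zb_nonneg {G α : Type*} [AddCommGroup G] [Fintype G] [Fintype α] (s : ℕ) :
    ∀ (e : Fin (s + 1) → α → G) (g : G → ℝ), 0 ≤ Zb (s + 1) e g := by
  induction s with
  | zero =>
    intro e g
    unfold Zb
    exact Finset.sum_nonneg fun x _ => by rw [box_one]; positivity
  | succ s ih =>
    intro e g
    rw [Zb_succ]
    exact Finset.sum_nonneg fun t _ => Finset.sum_nonneg fun t' _ => ih _ _

theorem D1_comm {G : Type*} [AddCommGroup G] (u v : G) (g : G → ℝ) : D1 u (D1 v g) = D1 v (D1 u g) := by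
  funext x
  unfold D1
  have : x + u + v = x + v + u := by abel
  rw [this]
  ring

theorem sum_Zb_one {G α : Type*} [AddCommGroup G] [Fintype G] [Fintype α] (e : Fin 1 → α → G)
    (he : Function.Injective (e 0)) (g : G → ℝ) :
    ∑ u, Zb 1 e (D1 u g) ≤ (Fintype.card α : ℝ) * UG 2 g := by
  have h1 : ∑ u, Zb 1 e (D1 u g) = ∑ t : α, ∑ t' : α, UG 1 (D1 (e 0 t' - e 0 t) g) := by
    simp only [Zb_one]
    rw [Finset.sum_comm]
    refine Finset.sum_congr rfl fun t _ => ?_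
    rw [Finset.sum_comm]
    refine Finset.sum_congr rfl fun t' _ => ?_
    rw [UG_succ 0]
    refine Finset.sum_congr rfl fun u _ => ?_
    rw [UG_zero, D1_comm]
  rw [h1, UG_succ 1 g]
  exact diff_le he (fun u => UG 1 (D1 u g)) fun u => UG_nonneg 0 _

theorem boxres {G α : Type*} [AddCommGroup G] [Fintype G] [Fintype α] (k : ℕ) :
    ∀ (e : Fin (k + 2) → α → G), (∀ i, Function.Injective (e i)) → ∀ g : G → ℝ,
    Zb (k + 2) e g ≤ (Fintype.card α : ℝ) ^ (k + 2) * UG (k + 2) g := by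
  induction k with
  | zero =>
    intro e he g
    rw [Zb_succ]
    calc _ ≤ (Fintype.card α : ℝ) * ∑ u, Zb 1 (fun i => e i.succ) (D1 u g) :=
          diff_le (he 0) (fun u => Zb 1 (fun i => e i.succ) (D1 u g)) fun u => Zb_nonneg _ _ _
      _ ≤ (Fintype.card α : ℝ) * ((Fintype.card α : ℝ) * UG 2 g) :=
          mul_le_mul_of_nonneg_left (sum_Zb_one _ (he _) g) (by positivity)
      _ = _ := by ring
  | succ k ih =>
    intro e he g
    rw [Zb_succ]
    calc _ ≤ (Fintype.card α : ℝ) * ∑ u, Zb (k + 2) (fun i => e i.succ) (D1 u g) :=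
          diff_le (he 0) (fun u => Zb (k + 2) (fun i => e i.succ) (D1 u g)) fun u => Zb_nonneg _ _ _
      _ ≤ (Fintype.card α : ℝ) * ∑ u, (Fintype.card α : ℝ) ^ (k + 2) * UG (k + 2) (D1 u g) :=
          mul_le_mul_of_nonneg_left (Finset.sum_le_sum fun u _ => ih _ (fun i => he _) _) (by positivity)
      _ = _ := by rw [← Finset.mul_sum, ← UG_succ]; ring

theorem t_BOXRES : S_BOXRES := fun _ _ _ _ _ k g ei hei => boxres k ei hei g

/-! ### split phases -/

/-- each factor of `PD univ h g x` other than the top one misses a variable -/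
theorem PD_split {k p : ℕ} (g : ZMod p → ℝ) (hg : ∀ x, |g x| ≤ 1) (x : ZMod p) :
    ∃ B : Fin (k + 1) → (Fin (k + 1) → ZMod p) → ℝ, (∀ j h, |B j h| ≤ 1) ∧
      (∀ j h t, B j (Function.update h j t) = B j h) ∧
      ∀ h, PD Finset.univ h g x = g (x + ∑ i, h i) * ∏ j, B j h := by
  classical
  -- the first missing variable
  have hm : ∀ s : Finset (Fin (k + 1)), s ≠ Finset.univ → ∃ j, j ∉ s := by
    intro s hs
    by_contra hc
    push Not at hc
    exact hs (Finset.eq_univ_iff_forall.2 hc)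
  set m : Finset (Fin (k + 1)) → Fin (k + 1) := fun s => if h : s ≠ Finset.univ then (hm s h).choose else 0
    with hmdef
  have hm2 : ∀ s : Finset (Fin (k + 1)), s ≠ Finset.univ → m s ∉ s := by
    intro s hs
    rw [hmdef]
    simp only
    rw [dif_pos hs]
    exact (hm s hs).choose_spec
  set S : Finset (Finset (Fin (k + 1))) := (Finset.univ : Finset (Fin (k + 1))).powerset.erase Finset.univ
    with hS
  refine ⟨fun j h => ∏ s ∈ S.filter (fun s => m s = j), g (x + ∑ i ∈ s, h i), ?_, ?_, ?_⟩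
  · intro j h
    rw [Finset.abs_prod]
    exact Finset.prod_le_one (fun _ _ => abs_nonneg _) fun _ _ => hg _
  · intro j h t
    refine Finset.prod_congr rfl fun s hs => ?_
    rw [Finset.mem_filter, hS, Finset.mem_erase] at hs
    congr 2
    refine Finset.sum_congr rfl fun i hi => ?_
    rw [Function.update_of_ne]
    rintro rfl
    exact hm2 s hs.1.1 (hs.2 ▸ hi)
  · intro h
    unfold PD
    rw [← Finset.mul_prod_erase _ _ (Finset.mem_powerset.2 (Finset.subset_univ (Finset.univ)))]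
    congr 1
    exact (Finset.prod_fiberwise S m _).symm

theorem D1_abs {p : ℕ} {F : ZMod p → ℝ} (hF : ∀ x, |F x| ≤ 1) (d x : ZMod p) : |D1 d F x| ≤ 1 := by
  unfold D1
  rw [abs_mul]
  exact mul_le_one₀ (hF _) (abs_nonneg _) (hF _)

theorem chi_sum {p : ℕ} [NeZero p] {ι : Type*} (s : Finset ι) (f : ι → ZMod p) :
    chi (∑ j ∈ s, f j) = ∏ j ∈ s, chi (f j) := by
  classical
  induction s using Finset.induction_on with
  | empty => rw [Finset.sum_empty, Finset.prod_empty, chi_zero]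
  | insert a s ha ih => rw [Finset.sum_insert ha, Finset.prod_insert ha, chi_add, ih]

theorem t_SPLIT : S_SPLIT := by
  intro p _ k F hF ψ hψ
  classical
  set L : ℝ := ∑ h : Fin (k + 1) → ZMod p,
    ‖ft (fun x => ((PD Finset.univ h F x : ℝ) : ℂ)) (∑ j, ψ j h)‖ ^ 2 with hL
  have hL0 : 0 ≤ L := Finset.sum_nonneg fun _ _ => by positivity
  have hp : (0 : ℝ) ≤ p := Nat.cast_nonneg _
  set Y : ZMod p × ZMod p → ℂ := fun q => ∑ h : Fin (k + 1) → ZMod p,
    ((PD Finset.univ h (D1 q.2 F) q.1 : ℝ) : ℂ) * chi ((∑ j, ψ j h) * q.2) with hY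
  have e1 : (L : ℂ) = ∑ q, Y q := by
    rw [hL, Complex.ofReal_sum, Fintype.sum_prod_type]
    rw [Finset.sum_congr rfl fun h _ => sq_ft (fun x => PD Finset.univ h F x) (∑ j, ψ j h), Finset.sum_comm]
    refine Finset.sum_congr rfl fun x _ => ?_
    rw [Finset.sum_comm]
    refine Finset.sum_congr rfl fun d _ => ?_
    rw [hY]
    refine Finset.sum_congr rfl fun h _ => ?_
    rw [PD_D1]
  have e2 : L ≤ ∑ q, ‖Y q‖ := by
    have : L = ‖(L : ℂ)‖ := by rw [Complex.norm_real, Real.norm_eq_abs, abs_of_nonneg hL0]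
    rw [this, e1]
    exact norm_sum_le _ _
  have e3 : ∀ q, ‖Y q‖ ^ (2 ^ (k + 1)) ≤ (p : ℝ) ^ ((k + 1) * 2 ^ (k + 1) - 2 * (k + 1)) *
      Box (k + 1) (fun h : Fin (k + 1) → ZMod p => D1 q.2 F (q.1 + ∑ i, h i)) := by
    intro q
    obtain ⟨B, hB1, hB2, hB3⟩ := PD_split (k := k) (D1 q.2 F) (D1_abs hF q.2) q.1
    have h1 := boxcs k (fun h : Fin (k + 1) → ZMod p => D1 q.2 F (q.1 + ∑ i, h i))
      (fun j h => (B j h : ℂ) * chi (ψ j h * q.2))
      (fun j h => by
        rw [norm_mul, norm_chi, mul_one, Complex.norm_real, Real.norm_eq_abs]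
        exact hB1 j h)
      (fun j h t => by rw [hB2, hψ])
    rw [ZMod.card] at h1
    refine le_trans (le_of_eq ?_) h1
    congr 2
    rw [hY]
    refine Finset.sum_congr rfl fun h _ => ?_
    rw [hB3, Finset.prod_mul_distrib, Finset.sum_mul]
    rw [chi_sum]
    push_cast
    ring
  have h2 : 2 ^ (k + 1) - 1 + 1 = 2 ^ (k + 1) := Nat.sub_add_cancel Nat.one_le_two_pow
  have e4 := jensen (Finset.univ : Finset (ZMod p × ZMod p)) (fun q => ‖Y q‖) (fun _ _ => norm_nonneg _)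
    (2 ^ (k + 1) - 1)
  rw [h2, Finset.card_univ, Fintype.card_prod, ZMod.card] at e4
  push_cast at e4
  have e5 : ∑ q : ZMod p × ZMod p, Box (k + 1) (fun h : Fin (k + 1) → ZMod p => D1 q.2 F (q.1 + ∑ i, h i)) =
      (p : ℝ) ^ (k + 1) * UG (k + 2) F := by
    rw [Fintype.sum_prod_type_right, UG_succ, Finset.mul_sum]
    refine Finset.sum_congr rfl fun d _ => ?_
    have := boxsum (k + 1) (D1 d F)
    rw [ZMod.card] at this
    exact this
  have e6 : 2 * (2 ^ (k + 1) - 1) + ((k + 1) * 2 ^ (k + 1) - 2 * (k + 1)) + (k + 1) =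
      (k + 3) * 2 ^ (k + 1) - (k + 3) := by
    have b1 : 2 ≤ 2 ^ (k + 1) := by
      calc 2 = 2 ^ 1 := by norm_num
        _ ≤ 2 ^ (k + 1) := Nat.pow_le_pow_right (by norm_num) (by omega)
    obtain ⟨c, hc⟩ : ∃ c, 2 ^ (k + 1) = c + 2 := ⟨2 ^ (k + 1) - 2, by omega⟩
    rw [hc]
    have c1 : (k + 1) * (c + 2) - 2 * (k + 1) = (k + 1) * c := by
      rw [mul_add, mul_comm 2 (k + 1)]; omega
    have c2 : (k + 3) * (c + 2) - (k + 3) = (k + 3) * (c + 1) := by
      have : (k + 3) * (c + 2) = (k + 3) * (c + 1) + (k + 3) := by ring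
      omega
    rw [c1, c2]
    have c3 : c + 2 - 1 = c + 1 := by omega
    rw [c3]
    ring
  calc L ^ (2 ^ (k + 1)) ≤ (∑ q, ‖Y q‖) ^ (2 ^ (k + 1)) := pow_le_pow_left₀ hL0 e2 _
    _ ≤ ((p : ℝ) * p) ^ (2 ^ (k + 1) - 1) * ∑ q, ‖Y q‖ ^ (2 ^ (k + 1)) := e4
    _ ≤ ((p : ℝ) * p) ^ (2 ^ (k + 1) - 1) * ((p : ℝ) ^ ((k + 1) * 2 ^ (k + 1) - 2 * (k + 1)) *
        ((p : ℝ) ^ (k + 1) * UG (k + 2) F)) := by
        refine mul_le_mul_of_nonneg_left ?_ (by positivity)
        rw [← e5, Finset.mul_sum]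
        exact Finset.sum_le_sum fun q _ => e3 q
    _ = _ := by
        rw [← e6, pow_add, pow_add, ← sq, ← pow_mul]
        ring

end Pool.Agent.J4H8.QU
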